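import Pool.Agent.H369.CFG.Stm

/-! CFG4: emptiness on the nodal elliptic curve. -/

set_option autoImplicit false
set_option linter.unusedSectionVars false

namespace Pool.Agent.H687.CFG

open TensorProduct Pool.Agent.H369.TH Pool.Agent.H369.CB Pool.Agent.H369.CFG

section

variable {Γ K : Type} [AddCommGroup Γ] [LinearOrder Γ] [IsOrderedAddMonoid Γ] [Field K]

theorem v_mul (a b : Pt Γ K) : (a * b).v = a.v + b.v := rfl

theorem v_ng (a : Pt Γ K) : (ng a).v = a.v := by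
  unfold ng
  rw [v_mul]
  show Multiplicative.toAdd (1 : Multiplicative Γ) + a.v = a.v
  rw [toAdd_one, zero_add]

theorem v_zpow (a : Pt Γ K) (k : ℤ) : (a ^ k).v = k • a.v := rfl

theorem v_pow (a : Pt Γ K) (k : ℕ) : (a ^ k).v = k • a.v := rfl

theorem v_qq (P : Γ) : (qq P : Pt Γ K).v = P := rfl

theorem ng_mul_ng (a b : Pt Γ K) : ng a * ng b = a * b := by
  have h : (ng1 : Pt Γ K) * ng1 = 1 := by
    unfold ng1
    apply Prod.ext
    · show (1 : Multiplicative Γ) * 1 = 1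
      rw [one_mul]
    · show (-1 : Kˣ) * (-1) = 1
      rw [neg_mul_neg, one_mul]
  unfold ng
  calc ng1 * a * (ng1 * b) = (ng1 * ng1) * (a * b) := by
        rw [mul_mul_mul_comm]
    _ = a * b := by rw [h, one_mul]

/-- different positions -/
theorem ne_of_v {a b : Pt Γ K} {P : Γ} (h : ∀ k : ℤ, b.v ≠ a.v + k • P) (k : ℤ) :
    b ≠ a * qq P ^ k := by
  intro hb
  have := congrArg Pt.v hb
  rw [v_mul, v_zpow, v_qq] at this
  exact h k this

end

theorem e (_h1 : S_rules) (h2 : S_theta) (h3 : S_delta) (h4 : S_eps) (h5 : S_tau) : S_E := by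
  intro Γ K _ _ _ _ _ g hg A ξ y hE n γ hγ hn κ hκ G hC
  by_contra hcon
  push Not at hcon
  have hB := A.big
  -- the conditions at the points
  have t1 : ∀ i, PowerSeries.coeff 0 (T (A.p ξ i) (theta A.P (A.x : Pt Γ K))) ≠ 0 := fun i =>
    (h2 Γ K A.P hB A.x).2.2.2.2 _ (ne_of_v A.ne0t)
  have t2 : ∀ i, PowerSeries.coeff 0 (T (A.p ξ i) (theta A.P (A.z : Pt Γ K))) ≠ 0 := fun i =>
    (h2 Γ K A.P hB A.z).2.2.2.2 _ (ne_of_v A.ne1t)
  have t3 : PowerSeries.coeff 0 (T (A.z : Pt Γ K) (theta A.P (A.y1 : Pt Γ K))) ≠ 0 := by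
    refine (h2 Γ K A.P hB A.y1).2.2.2.2 _ (ne_of_v ?_)
    unfold Gam.y1
    rw [v_ng]
    exact A.ne01
  have t4 : PowerSeries.coeff 0 (T (A.z : Pt Γ K) (theta A.P (A.y2 : Pt Γ K))) ≠ 0 := by
    refine (h2 Γ K A.P hB A.y2).2.2.2.2 _ ?_
    intro k hk
    have h6 := congrArg Prod.snd hk
    have h7 : (1 : Kˣ) = (-1 * 1) * 1 ^ k := h6
    rw [one_zpow, mul_one, mul_one] at h7
    have h8 : (1 : K) = -1 := congrArg Units.val h7
    have h9 : (2 : K) = 0 := by linear_combination h8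
    exact two_ne_zero h9
  have t5 : PowerSeries.coeff 0 (T (A.z : Pt Γ K) (theta A.P (A.y1 : Pt Γ K) *
      theta A.P (A.y2 : Pt Γ K))) ≠ 0 := by
    rw [map_mul, PowerSeries.coeff_zero_eq_constantCoeff_apply, map_mul]
    rw [PowerSeries.coeff_zero_eq_constantCoeff_apply] at t3 t4
    exact mul_ne_zero t3 t4
  have t6 : (A.y1 : Pt Γ K) * A.y2 = A.x * A.z := ng_mul_ng _ _
  -- the first degeneration
  obtain ⟨hn2, Φ, hΦ, hΦ0, hΦne, hnode⟩ := h3 Γ K A.P hB n γ (ng A.o ^ n) A.x (g - 1) (A.p ξ) t1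
    (A.ze ξ y) κ hκ G hC.mem hC.sym hC.dia hC.nod hcon
  set N : ℕ := n - γ with hN
  set J : ℕ := n - 2 * γ with hJ
  have hNJ : N = J + γ := by omega
  set C₀ : Pt Γ K := ng A.o ^ n * ng A.x ^ (-(γ : ℤ)) with hC₀
  have hΦ' : ∀ j b : ℕ, Φ j b ∈ Th A.P ((N : ℤ) - (j : ℤ)) (C₀ * ng A.x ^ (-(j : ℤ))) := by
    intro j b
    have h6 := hΦ j b
    have e1 : (n : ℤ) - (j : ℤ) - γ = (N : ℤ) - (j : ℤ) := by omega
    have e2 : (ng A.o ^ n : Pt Γ K) * ng A.x ^ (-((j : ℤ) + γ)) = C₀ * ng A.x ^ (-(j : ℤ)) := by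
      rw [hC₀, mul_assoc, ← zpow_add]
      congr 2
      ring
    rw [e1, e2] at h6
    exact h6
  -- the second degeneration
  obtain ⟨A', hA1, hA2, hA3, hA4⟩ := h4 Γ K A.P hB N J γ C₀ A.x A.z A.y1 A.y2 t6 t5 Φ hΦ'
    (fun j b hj => hΦ0 j b (by omega)) hΦne (g - 1) (A.p ξ) (fun i => HahnSeries.C (y i)) t1 t2
    (fun i a' b' hab => hnode i a' b' hab)
  -- the restriction to the circle
  obtain ⟨f, hf, hwin, hex⟩ := h5 Γ K A.P hB N J γ C₀ A.x A.z A.ta A.lt1 A.lt2 A.lt3 A.lt4 (g - 1)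
    (A.p ξ) (fun i => rfl) y A' hA1 hA2 hA3 hA4
  -- the real part
  have hr : ∀ (k : ℤ) (x : Γ), A.r (k • x) = (k : ℝ) * A.r x := by
    intro k x
    rw [map_zsmul, zsmul_eq_mul]
  set L : ℝ := n * A.r A.oo - N * Int.fract (2 * √(g : ℝ)) with hL
  have hrC : A.r C₀.v = n * A.r A.oo := by
    have e1 : C₀.v = n • A.oo + (-(γ : ℤ)) • A.x0 := by
      rw [hC₀, v_mul, v_pow, v_zpow, v_ng, v_ng]
      rfl
    rw [e1, map_add, hr, A.r0, mul_zero, add_zero, map_nsmul, nsmul_eq_mul]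
  have hreg : ∀ (a : ℤ) (k : ℕ), f (a, k) ≠ 0 → Reg L (Int.fract (2 * √g)) (J + γ) J a k := by
    intro a k hak
    obtain ⟨h6, h7, h8, h9⟩ := hwin a k hak
    have h8' := A.mono h8
    have h9' := A.mono h9
    have e1 : (A.x : Pt Γ K).v = A.x0 := rfl
    have e2 : (A.z : Pt Γ K).v = A.x1 := rfl
    rw [e1, e2] at h8' h9'
    simp only [map_add, map_sub, hr, A.r0, A.r1, A.rt, A.rP, hrC, mul_zero, sub_zero, mul_one]
      at h8' h9'
    have hNc : (N : ℝ) = (J : ℝ) + γ := by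
      rw [hNJ]
      push_cast
      ring
    rw [← hNJ]
    refine ⟨h6, h7, ?_, ?_⟩
    · push_cast at h8' ⊢
      rw [hL]
      linarith
    · push_cast at h9' ⊢
      rw [hL]
      linarith
  apply hf
  refine hE J γ L hγ ?_ ?_ f hreg (fun i a' b' hab => hex i a' b' hab)
  · have e1 : ((J + γ : ℕ) : ℝ) = n - γ := by
      rw [← hNJ, hN, Nat.cast_sub (by omega)]
    rw [e1]
    linarith
  · intro heq z hz
    have hg0 : (0 : ℝ) ≤ g := Nat.cast_nonneg _
    have hsq : IsSquare g := by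
      by_contra hns
      have hirr : Irrational √(g : ℝ) := irrational_sqrt_natCast_iff.2 hns
      have hγ' : (γ : ℝ) ≠ 0 := by exact_mod_cast hγ.ne'
      apply hirr
      refine ⟨((J + γ : ℕ) : ℚ) / γ, ?_⟩
      rw [Rat.cast_div, Rat.cast_natCast, Rat.cast_natCast, heq]
      field_simp
    obtain ⟨s, hs⟩ := hsq
    have e1 : √(g : ℝ) = s := by
      rw [hs]
      push_cast
      exact Real.sqrt_mul_self (Nat.cast_nonneg _)
    have e2 : Int.fract (2 * √(g : ℝ)) = 0 := by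
      rw [e1]
      have : (2 : ℝ) * s = ((2 * s : ℕ) : ℝ) := by push_cast; ring
      rw [this]
      exact Int.fract_natCast _
    have e4 : (N : ℝ) * Int.fract (2 * √(g : ℝ)) = 0 := by rw [e2, mul_zero]
    have e5 : (n : ℝ) * A.r A.oo = z := by
      have e6 : L = n * A.r A.oo - N * Int.fract (2 * √(g : ℝ)) := hL
      have e7 : (n : ℝ) * A.r A.oo = L + N * Int.fract (2 * √(g : ℝ)) := by
        rw [e6]; ring
      rw [e7, e4, add_zero]
      first
        | exact hz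
        | exact hz.symm
    exact A.irr n (by omega) z e5

end Pool.Agent.H687.CFG
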